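import Pool.Agent.TMX.Stmts4

/-! Squad TMX, row Gain3b: copy of `Helper50_TMX/Gain3.lean` with a weaker hypothesis. -/

namespace Pool.Agent.TMX.H77Gain3b

open Finset Pool.Agent.TMX
open Pool.Agent.Helper51_Max (I IsMax)

/-- the ball inequality, shifted by `u` -/
theorem ball_ge {N : ℕ} {g M : ℕ → ℝ} (h : IsMax N g M) {v : ℕ} (hv : v ≤ N) (u : ℝ)
    {ρ a e : ℕ} (hI : I N v ρ = Icc a e) (hae : a ≤ e + 1) :
    ∑ i ∈ Icc a e, (g i - u) ≤ ((e : ℝ) + 1 - a) * (M v - u) := by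
  have h1 := h.le v hv ρ
  rw [hI, Nat.card_Icc, Nat.cast_sub hae] at h1
  rw [sum_sub_distrib, sum_const, Nat.card_Icc, nsmul_eq_mul, Nat.cast_sub hae]
  push_cast at h1 ⊢
  linarith

/-- the arithmetic of the last step -/
theorem core {l d c n h X τ S m m' : ℝ} (hl : 0 < l) (hc0 : 0 < c) (hcn : c ≤ n) (hX : 0 ≤ X)
    (F1 : l * h ≤ (l + 2 * d) * m) (F2 : l * h - X ≤ (l - 2 * d) * m) (F3 : X ≤ l * m')
    (F4 : X + τ ≤ c * m') (hS : S ≤ X + τ) : S ≤ 2 * n * (m + m' - h) := by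
  have h1 : 2 * l * h - X ≤ 2 * l * m := by linarith
  have h2 : X ≤ 2 * l * (m + m' - h) := by linarith
  have hE : 0 ≤ m + m' - h := by
    by_contra hc
    push Not at hc
    have := mul_neg_of_pos_of_neg (by linarith : (0 : ℝ) < 2 * l) hc
    linarith
  have h3 : h - X / (2 * l) ≤ m := by
    rw [sub_le_iff_le_add, ← sub_le_iff_le_add', le_div_iff₀ (by linarith)]
    linarith
  have h4 : X / (2 * l) ≤ m + m' - h := by
    rw [div_le_iff₀ (by linarith)]
    linarith
  have h5 : m' ≤ 2 * (m + m' - h) := by linarith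
  have h6 : c * m' ≤ c * (2 * (m + m' - h)) := mul_le_mul_of_nonneg_left h5 hc0.le
  have h7 : c * (2 * (m + m' - h)) ≤ n * (2 * (m + m' - h)) :=
    mul_le_mul_of_nonneg_right hcn (by linarith)
  linarith

theorem gain3b : Gain3b := by
  intro N g M hM y z z' r u p' q hG hzq hqN hu hp' hp'q
  have hgM : ∀ v, v ≤ N → g v ≤ M v := fun v hv => Helper37_EM.g_le hM hv
  have hyz := hG.yz
  have hzz' := hG.zz
  have hrz := hG.rz
  have hrN := hG.rN
  have hy := hG.hy
  have hz := hG.hz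
  have hC := hG.hC
  have hopt := hG.opt
  have hyu : u ≤ M y := (hu y (by omega)).trans (hgM y (by omega))
  have hz'u : u ≤ M z' := (hu z' (by omega)).trans (hgM z' (by omega))
  have hnn : ∀ i, i ≤ q → 0 ≤ g i - u := fun i hi => by linarith [hu i hi]
  -- the ball of z
  have hIz : I N z r = Icc (z - r) (z + r) := by
    unfold Helper51_Max.I
    rw [min_eq_left (by omega)]
  have hGs : ∑ i ∈ Icc (z - r) (z + r), (g i - u) = (2 * (r : ℝ) + 1) * (M z - u) := by
    rw [hIz, Nat.card_Icc, Nat.cast_sub (by omega)] at hopt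
    rw [sum_sub_distrib, sum_const, Nat.card_Icc, nsmul_eq_mul, Nat.cast_sub (by omega)]
    rw [← hopt, Nat.cast_sub (by omega : r ≤ z)]
    push_cast
    ring
  -- X
  have hX : 0 ≤ ∑ i ∈ Icc (2 * z' - (z + r)) (z + r), (g i - u) := by
    apply sum_nonneg
    intro i hi
    rw [mem_Icc] at hi
    exact hnn i (by omega)
  -- F1
  have hI1 : I N y (r + (z - y)) = Icc (y - (r + (z - y))) (z + r) := by
    unfold Helper51_Max.I
    rw [min_eq_left (by omega)]
    congr 1
    omega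
  have F1a := ball_ge hM (by omega : y ≤ N) u hI1 (by omega)
  have F1b : ∑ i ∈ Icc (z - r) (z + r), (g i - u) ≤
      ∑ i ∈ Icc (y - (r + (z - y))) (z + r), (g i - u) := by
    apply sum_le_sum_of_subset_of_nonneg
    · intro i hi
      rw [mem_Icc] at hi ⊢
      omega
    · intro i hi hi'
      rw [mem_Icc] at hi
      exact hnn i (by omega)
  have F1c : ((z + r : ℕ) : ℝ) + 1 - ((y - (r + (z - y)) : ℕ) : ℝ) ≤
      2 * (r : ℝ) + 1 + 2 * ((z : ℝ) - y) := by
    have h1 : z + r + 1 ≤ 2 * r + 1 + 2 * (z - y) + (y - (r + (z - y))) := by omega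
    have h2 : ((z + r + 1 : ℕ) : ℝ) ≤
        ((2 * r + 1 + 2 * (z - y) + (y - (r + (z - y))) : ℕ) : ℝ) := by exact_mod_cast h1
    push_cast [Nat.cast_sub (by omega : y ≤ z)] at h2
    push_cast
    linarith
  have F1 : (2 * (r : ℝ) + 1) * (M z - u) ≤
      (2 * (r : ℝ) + 1 + 2 * ((z : ℝ) - y)) * (M y - u) := by
    rw [← hGs]
    refine F1b.trans (F1a.trans ?_)
    exact mul_le_mul_of_nonneg_right F1c (by linarith)
  -- F2
  have hI2 : I N y (y + r - z) = Icc (z - r) (2 * y + r - z) := by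
    unfold Helper51_Max.I
    rw [min_eq_left (by omega)]
    congr 1 <;> omega
  have F2a := ball_ge hM (by omega : y ≤ N) u hI2 (by omega)
  have F2b : ∑ i ∈ Icc (z - r) (z + r), (g i - u) ≤
      ∑ i ∈ Icc (z - r) (2 * y + r - z), (g i - u) +
        ∑ i ∈ Icc (2 * z' - (z + r)) (z + r), (g i - u) := by
    rw [← sum_union_inter]
    have hun : Icc (z - r) (2 * y + r - z) ∪ Icc (2 * z' - (z + r)) (z + r) =
        Icc (z - r) (z + r) := by
      ext i
      rw [mem_union, mem_Icc, mem_Icc, mem_Icc]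
      omega
    rw [hun]
    have hin : 0 ≤ ∑ i ∈ Icc (z - r) (2 * y + r - z) ∩ Icc (2 * z' - (z + r)) (z + r),
        (g i - u) := by
      apply sum_nonneg
      intro i hi
      rw [mem_inter, mem_Icc, mem_Icc] at hi
      exact hnn i (by omega)
    linarith
  have F2c : ((2 * y + r - z : ℕ) : ℝ) + 1 - ((z - r : ℕ) : ℝ) =
      2 * (r : ℝ) + 1 - 2 * ((z : ℝ) - y) := by
    rw [Nat.cast_sub (by omega), Nat.cast_sub (by omega)]
    push_cast
    ring
  rw [F2c] at F2a
  have F2 : (2 * (r : ℝ) + 1) * (M z - u) - ∑ i ∈ Icc (2 * z' - (z + r)) (z + r), (g i - u) ≤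
      (2 * (r : ℝ) + 1 - 2 * ((z : ℝ) - y)) * (M y - u) := by
    rw [← hGs]
    linarith
  -- F3
  have hI3 : I N z' (z + r - z') = Icc (2 * z' - (z + r)) (z + r) := by
    unfold Helper51_Max.I
    rw [min_eq_left (by omega)]
    congr 1 <;> omega
  have F3a := ball_ge hM (by omega : z' ≤ N) u hI3 (by omega)
  have F3c : ((z + r : ℕ) : ℝ) + 1 - ((2 * z' - (z + r) : ℕ) : ℝ) ≤ 2 * (r : ℝ) + 1 := by
    rw [Nat.cast_sub (by omega)]
    have : (z : ℝ) < z' := by exact_mod_cast hzz'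
    push_cast
    linarith
  have F3 : ∑ i ∈ Icc (2 * z' - (z + r)) (z + r), (g i - u) ≤
      (2 * (r : ℝ) + 1) * (M z' - u) :=
    F3a.trans (mul_le_mul_of_nonneg_right F3c (by linarith))
  -- F4
  have hI4 : I N z' (q - z') = Icc (z' - (q - z')) q := by
    unfold Helper51_Max.I
    rw [min_eq_left (by omega)]
    congr 1
    omega
  have F4a := ball_ge hM (by omega : z' ≤ N) u hI4 (by omega)
  have hspl : ∑ i ∈ Icc (2 * z' - (z + r)) (z + r), (g i - u) +
      ∑ i ∈ Icc (z + r + 1) q, (g i - u) = ∑ i ∈ Icc (2 * z' - (z + r)) q, (g i - u) := by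
    rw [← sum_union]
    · congr 1
      ext i
      rw [mem_union, mem_Icc, mem_Icc, mem_Icc]
      omega
    · rw [Finset.disjoint_left]
      intro i hi hi'
      rw [mem_Icc] at hi hi'
      omega
  have F4b : ∑ i ∈ Icc (2 * z' - (z + r)) q, (g i - u) ≤
      ∑ i ∈ Icc (z' - (q - z')) q, (g i - u) := by
    apply sum_le_sum_of_subset_of_nonneg
    · intro i hi
      rw [mem_Icc] at hi ⊢
      omega
    · intro i hi hi'
      rw [mem_Icc] at hi
      exact hnn i (by omega)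
  have hSb : ∑ i ∈ Icc p' q, (g i - u) ≤ ∑ i ∈ Icc (2 * z' - (z + r)) q, (g i - u) := by
    apply sum_le_sum_of_subset_of_nonneg
    · intro i hi
      rw [mem_Icc] at hi ⊢
      omega
    · intro i hi hi'
      rw [mem_Icc] at hi
      exact hnn i (by omega)
  have hc0 : (0 : ℝ) < (q : ℝ) + 1 - ((z' - (q - z') : ℕ) : ℝ) := by
    have h1 : z' - (q - z') ≤ q := by omega
    have h2 : ((z' - (q - z') : ℕ) : ℝ) ≤ q := by exact_mod_cast h1
    linarith
  have hcn : (q : ℝ) + 1 - ((z' - (q - z') : ℕ) : ℝ) ≤ (N : ℝ) + 1 := by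
    have h1 : (q : ℝ) ≤ N := by exact_mod_cast hqN
    have h2 : (0 : ℝ) ≤ ((z' - (q - z') : ℕ) : ℝ) := Nat.cast_nonneg _
    linarith
  have hfin := core (S := ∑ i ∈ Icc p' q, (g i - u)) (by positivity : (0 : ℝ) < 2 * (r : ℝ) + 1)
    hc0 hcn hX F1 F2 F3 (by rw [hspl]; exact F4b.trans F4a) (by rw [hspl]; exact hSb)
  have hs : (M y - u) + (M z' - u) - (M z - u) = M y + M z' - M z - u := by ring
  rwa [hs] at hfin

end Pool.Agent.TMX.H77Gain3b
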