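import Pool.Agent.TMX.Stmts5

/-! Squad TMX, row IndP: induction over the good peaks. -/

namespace Pool.Agent.TMX.H77

open Finset Pool.Agent.TMX

theorem indP : IndP := by
  intro N g M P pf hpf hmin h0 hstep x
  induction x using Nat.strong_induction_on with
  | _ x ih =>
    intro hx
    rcases (hmin x hx).eq_or_lt with h | h
    · rw [← h]
      exact h0
    · classical
      let Q : ℕ → Prop := fun s => s < x ∧ Pk N g M s
      have hs : Q (Nat.findGreatest Q x) := Nat.findGreatest_spec (P := Q) h.le ⟨h, hpf⟩
      have hmax : ∀ v, Nat.findGreatest Q x < v → v < x → ¬ Pk N g M v := by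
        intro v hv hvx hP
        exact Nat.findGreatest_is_greatest hv hvx.le ⟨hvx, hP⟩
      exact hstep _ x ⟨hs.2, hx, hs.1, hmax⟩ (ih _ hs.1 hs.2)

end Pool.Agent.TMX.H77
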